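import Mathlib

set_option autoImplicit false

open MeasureTheory Filter Topology

namespace Pool.Agent.W747.LE

/-- The space `ℂ²` with its Hermitian norm. -/
abbrev V2 : Type := EuclideanSpace ℂ (Fin 2)

/-- `GL(2,ℂ)`, as the group of the linear automorphisms of `ℂ²`. -/
abbrev GL2 : Type := V2 ≃L[ℂ] V2

/-- The operator norm of an element of `GL(2,ℂ)`. -/
noncomputable def nrm (g : GL2) : ℝ := ‖(g : V2 →L[ℂ] V2)‖

variable {X : Type} [MeasurableSpace X]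

/-- The shift `(f x)_n = x_{n+1}` of `M = X^ℤ`. -/
def shift (x : ℤ → X) : ℤ → X := fun n => x (n + 1)

/-- `A^n(x) = A(f^{n-1} x) ⋯ A(f x) A(x)`. -/
noncomputable def iter (A : (ℤ → X) → GL2) : ℕ → (ℤ → X) → GL2
  | 0, _ => ContinuousLinearEquiv.refl ℂ V2
  | n + 1, x => (iter A n x).trans (A (shift^[n] x))

/-- `A` is a locally constant cocycle of range `N`: it is measurable, `A(x)` depends only on
`(x_{-N}, ..., x_N)`, and `log ‖A‖`, `log ‖A⁻¹‖` are bounded. -/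
structure IsCocycle (N : ℕ) (A : (ℤ → X) → GL2) : Prop where
  measurable : Measurable fun x => (A x : V2 →L[ℂ] V2)
  range : ∀ x y : ℤ → X, (∀ i : ℤ, |i| ≤ N → x i = y i) → A x = A y
  bounded : ∃ C : ℝ, ∀ x, |Real.log (nrm (A x))| ≤ C ∧ |Real.log (nrm (A x).symm)| ≤ C

/-- `lp` and `lm` are the extremal Lyapunov exponents `λ₊(A,p)` and `λ₋(A,p)`: for almost every
`x` for the product measure `p^ℤ`, `(1/n) log ‖A^n(x)‖ → lp` and
`(1/n) log ‖A^n(x)⁻¹‖⁻¹ → lm`. -/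
def HasExponents (A : (ℤ → X) → GL2) (p : ProbabilityMeasure X) (lp lm : ℝ) : Prop :=
  ∀ᵐ x ∂(Measure.infinitePi fun _ : ℤ => (p : Measure X)),
    Tendsto (fun n : ℕ => 1 / (n : ℝ) * Real.log (nrm (iter A n x))) atTop (𝓝 lp) ∧
    Tendsto (fun n : ℕ => 1 / (n : ℝ) * Real.log (nrm (iter A n x).symm)⁻¹) atTop (𝓝 lm)

/-- `d(A,B)`, the supremum over `x` of `‖A(x) - B(x)‖`. -/
noncomputable def distC (A B : (ℤ → X) → GL2) : ℝ :=
  ⨆ x, ‖(A x : V2 →L[ℂ] V2) - (B x : V2 →L[ℂ] V2)‖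

/-- `d(p,q)`, the supremum of `|∫ φ d(p - q)|` over the measurable functions `φ` with
`|φ| ≤ 1`. -/
noncomputable def distP (p q : ProbabilityMeasure X) : ℝ :=
  sSup {r : ℝ | ∃ φ : X → ℝ, Measurable φ ∧ (∀ x, |φ x| ≤ 1) ∧
    r = |∫ x, φ x ∂(p : Measure X) - ∫ x, φ x ∂(q : Measure X)|}

/-- The basic neighbourhood `V(A,p,γ,Z)` of the pair `(A,p)` in the space of pairs of a locally
constant cocycle of range `N` and a probability measure on `X`. -/
def nbhd (N : ℕ) (A : (ℤ → X) → GL2) (p : ProbabilityMeasure X) (γ : ℝ) (Z : Set X) :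
    Set (((ℤ → X) → GL2) × ProbabilityMeasure X) :=
  {w | IsCocycle N w.1 ∧ distC A w.1 < γ ∧ (w.2 : Measure X) Z = 1 ∧ distP p w.2 < γ}

end Pool.Agent.W747.LE
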