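import Pool.Agent.W747.LE.Proc

set_option autoImplicit false

open MeasureTheory Filter Topology ProbabilityTheory

namespace Pool.Agent.W747.LE

open Classical in
/-- The cocycle: the exchange of the axes if `x_0 = x_1`, the hyperbolic matrix otherwise. -/
noncomputable def A (x : ℤ → ℝ) : GL2 := if x 0 = x 1 then R else D

lemma shift_iter (n : ℕ) (x : ℤ → ℝ) (i : ℤ) : shift^[n] x i = x (i + n) := by
  induction n generalizing x with
  | zero => simp
  | succ n ih =>
    rw [Function.iterate_succ_apply, ih]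
    show x (i + n + 1) = _
    congr 1; push_cast; ring

lemma A_shift (n : ℕ) (x : ℤ → ℝ) : A (shift^[n] x) =
    (open Classical in if x n = x (n + 1) then R else D) := by
  unfold A
  rw [shift_iter, shift_iter, zero_add, add_comm (1 : ℤ)]

lemma measurable_A : Measurable fun x => (A x : V2 →L[ℂ] V2) := by
  classical
  have h : (fun x => (A x : V2 →L[ℂ] V2)) =
      fun x : ℤ → ℝ => if x 0 = x 1 then (R : V2 →L[ℂ] V2) else (D : V2 →L[ℂ] V2) := by
    funext x; unfold A; split_ifs <;> rfl
  rw [h]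
  refine Measurable.ite ?_ measurable_const measurable_const
  exact measurableSet_eq_fun (measurable_pi_apply 0) (measurable_pi_apply 1)

lemma isCocycle_A {N : ℕ} (hN : 1 ≤ N) : IsCocycle N A where
  measurable := measurable_A
  range x y h := by
    unfold A
    rw [h 0 (by simp), h 1 (by simpa using hN)]
  bounded := by
    refine ⟨Real.log 2, fun x => ?_⟩
    have h2 : 0 < Real.log 2 := Real.log_pos one_lt_two
    unfold A
    split_ifs
    · unfold R
      rw [nrm_G, nrm_G_symm]
      simp [h2.le]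
    · unfold D
      rw [nrm_G, nrm_G_symm]
      simp [abs_of_pos h2]

/-- State of the product. -/
noncomputable def stt : ℕ → (ℤ → ℝ) → Bool × ℤ
  | 0, _ => (false, 0)
  | n + 1, x => open Classical in
    if x n = x (n + 1) then (!(stt n x).1, (stt n x).2)
    else ((stt n x).1, (stt n x).2 + bif (stt n x).1 then -1 else 1)

lemma iter_eq (n : ℕ) (x : ℤ → ℝ) : iter A n x = G (stt n x).1 (stt n x).2 := by
  induction n with
  | zero =>
    show ContinuousLinearEquiv.refl ℂ V2 = G false 0
    ext v i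
    fin_cases i <;> simp [G_false]
  | succ n ih =>
    rw [iter, ih, A_shift, stt]
    split_ifs with h
    · rw [G_R]
    · rw [G_D]

lemma log_nrm (n : ℕ) (x : ℤ → ℝ) :
    Real.log (nrm (iter A n x)) = |((stt n x).2 : ℝ)| * Real.log 2 := by
  rw [iter_eq, nrm_G, Real.log_zpow, Int.cast_abs]

lemma log_nrm_symm (n : ℕ) (x : ℤ → ℝ) :
    Real.log (nrm (iter A n x).symm)⁻¹ = -(|((stt n x).2 : ℝ)| * Real.log 2) := by
  rw [iter_eq, nrm_G_symm, Real.log_inv, Real.log_zpow, Int.cast_abs]

/-- Without coincidences the product is a power of the hyperbolic matrix. -/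
lemma stt_ne {x : ℤ → ℝ} (h : ∀ n : ℕ, x n ≠ x (n + 1)) (n : ℕ) : stt n x = (false, (n : ℤ)) := by
  induction n with
  | zero => rfl
  | succ n ih =>
    rw [stt, if_neg (h n), ih]
    simp

/-- With coincidences at `z` only, the exponent is the signed count. -/
lemma stt_T {x : ℤ → ℝ} {z : ℝ} (h : ∀ n : ℕ, x n = x (n + 1) → x n = z) (n : ℕ) :
    S z n x = (bif (stt n x).1 then -1 else 1) ∧ T z n x = ((stt n x).2 : ℝ) := by
  induction n with
  | zero => simp [S, T, stt]
  | succ n ih =>
    obtain ⟨h1, h2⟩ := ih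
    rw [S, T, h1, h2, stt]
    by_cases he : x n = x (n + 1)
    · rw [if_pos he]
      have hz := h n he
      have y1 : yy z n x = 1 := by unfold yy; rw [if_pos hz]
      have y2 : yy z (n + 1) x = 1 := by
        unfold yy
        rw [if_pos]
        push_cast
        rw [← he, hz]
      rw [y1, y2]
      cases (stt n x).1 <;> norm_num
    · rw [if_neg he]
      have y12 : yy z n x * yy z (n + 1) x = 0 := by
        by_cases hz : x n = z
        · have : yy z (n + 1) x = 0 := by
            unfold yy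
            rw [if_neg]
            push_cast
            intro h3
            exact he (hz.trans h3.symm)
          rw [this, mul_zero]
        · have : yy z n x = 0 := by unfold yy; rw [if_neg hz]
          rw [this, zero_mul]
      rw [mul_assoc 2, y12]
      cases (stt n x).1 <;> norm_num

/-- The coincidences of two independent samples. -/
lemma ae_coinc (q : Measure ℝ) [IsProbabilityMeasure q] (B : Set ℝ) (hB : MeasurableSet B)
    (hq : ∀ a, a ∉ B → q {a} = 0) :
    ∀ᵐ x ∂(Measure.infinitePi fun _ : ℤ => q), ∀ n : ℕ, x n = x (n + 1) → x n ∈ B := by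
  rw [ae_all_iff]
  intro n
  have h1 := Measure.infinitePi_map_eval_prod (P := fun _ : ℤ => q) (i := (n : ℤ)) (j := (n : ℤ) + 1)
    (by linarith)
  have hms : MeasurableSet {w : ℝ × ℝ | w.1 = w.2 ∧ w.1 ∉ B} :=
    (measurableSet_eq_fun measurable_fst measurable_snd).inter (measurable_fst hB.compl)
  have h2 : (q.prod q) {w : ℝ × ℝ | w.1 = w.2 ∧ w.1 ∉ B} = 0 := by
    rw [Measure.measure_prod_null hms]
    refine Eventually.of_forall fun a => ?_
    by_cases ha : a ∈ B
    · have : Prod.mk a ⁻¹' {w : ℝ × ℝ | w.1 = w.2 ∧ w.1 ∉ B} = ∅ := by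
        ext b; simp [ha]
      show q (Prod.mk a ⁻¹' {w : ℝ × ℝ | w.1 = w.2 ∧ w.1 ∉ B}) = 0
      rw [this]; simp
    · refine measure_mono_null ?_ (hq a ha)
      intro b hb
      exact hb.1.symm
  rw [← h1, Measure.map_apply (by fun_prop) hms] at h2
  have h3 : ∀ᵐ x ∂(Measure.infinitePi fun _ : ℤ => q),
      x ∉ (fun x : ℤ → ℝ => (x n, x (n + 1))) ⁻¹' {w : ℝ × ℝ | w.1 = w.2 ∧ w.1 ∉ B} :=
    measure_eq_zero_iff_ae_notMem.mp h2
  filter_upwards [h3] with x hx he
  by_contra hcon
  exact hx ⟨he, hcon⟩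

/-- Lebesgue measure on the unit interval. -/
noncomputable def p : ProbabilityMeasure ℝ :=
  ⟨volume.restrict (Set.Icc 0 1), ⟨by simp⟩⟩

instance : NullSingletonClass (p : Measure ℝ) := by
  show NullSingletonClass (volume.restrict (Set.Icc (0 : ℝ) 1))
  infer_instance

lemma exponents_p : HasExponents A p (Real.log 2) (-Real.log 2) := by
  unfold HasExponents
  filter_upwards [ae_coinc (p : Measure ℝ) ∅ MeasurableSet.empty (fun a _ => measure_singleton a)]
    with x hx
  have h1 := stt_ne (x := x) hx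
  constructor
  · refine tendsto_const_nhds.congr' ?_
    filter_upwards [eventually_ge_atTop 1] with n hn
    have hn' : (n : ℝ) ≠ 0 := by positivity
    rw [log_nrm, h1 n]
    simp only [Int.cast_natCast, Nat.abs_cast]
    field_simp
  · refine tendsto_const_nhds.congr' ?_
    filter_upwards [eventually_ge_atTop 1] with n hn
    have hn' : (n : ℝ) ≠ 0 := by positivity
    rw [log_nrm_symm, h1 n]
    simp only [Int.cast_natCast, Nat.abs_cast]
    field_simp

/-- The measure `(1 - g) p + g δ_z`. -/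
noncomputable def qm (g : ℝ) (z : ℝ) : Measure ℝ :=
  ENNReal.ofReal (1 - g) • (p : Measure ℝ) + ENNReal.ofReal g • Measure.dirac z

lemma qm_prob {g : ℝ} (h0 : 0 ≤ g) (h1 : g ≤ 1) (z : ℝ) : IsProbabilityMeasure (qm g z) := by
  constructor
  unfold qm
  rw [Measure.add_apply, Measure.smul_apply, Measure.smul_apply, measure_univ, measure_univ,
    smul_eq_mul, smul_eq_mul, mul_one, mul_one, ← ENNReal.ofReal_add (by linarith) h0]
  simp

/-- The same as a probability measure. -/
noncomputable def qq (g z : ℝ) (h0 : 0 ≤ g) (h1 : g ≤ 1) : ProbabilityMeasure ℝ :=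
  ⟨qm g z, qm_prob h0 h1 z⟩

lemma qm_atom {g : ℝ} (h0 : 0 ≤ g) (z : ℝ) : (qm g z).real {z} = g := by
  unfold qm Measure.real
  rw [Measure.add_apply, Measure.smul_apply, Measure.smul_apply, measure_singleton]
  simp [h0]

lemma qm_noatom (g z : ℝ) {a : ℝ} (ha : a ≠ z) : qm g z {a} = 0 := by
  unfold qm
  rw [Measure.add_apply, Measure.smul_apply, Measure.smul_apply, measure_singleton,
    Measure.dirac_apply' _ (measurableSet_singleton a)]
  simp [Ne.symm ha]

lemma exponents_q {g : ℝ} (hg : g ≠ 0) (h0 : 0 ≤ g) (h1 : g ≤ 1) (z : ℝ) :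
    HasExponents A (qq g z h0 h1) 0 0 := by
  unfold HasExponents
  have := qm_prob h0 h1 z
  show ∀ᵐ x ∂(Measure.infinitePi fun _ : ℤ => qm g z), _
  filter_upwards [ae_coinc (qm g z) {z} (measurableSet_singleton z)
    (fun a ha => qm_noatom g z ha), ae_T (qm g z) hg (qm_atom h0 z) h0 h1] with x hx hT
  have h2 : ∀ n, T z n x = ((stt n x).2 : ℝ) := fun n => (stt_T (x := x) (z := z) hx n).2
  have h3 : Tendsto (fun n : ℕ => |((stt n x).2 : ℝ)| / n * Real.log 2) atTop (𝓝 0) := by
    have := hT.mul_const (Real.log 2)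
    rw [zero_mul] at this
    refine this.congr fun n => ?_
    rw [h2 n]
  constructor
  · refine h3.congr fun n => ?_
    rw [log_nrm]; ring
  · have h4 := h3.neg
    rw [neg_zero] at h4
    refine h4.congr fun n => ?_
    rw [log_nrm_symm]; ring

lemma distP_q {g : ℝ} (h0 : 0 ≤ g) (h1 : g ≤ 1) (z : ℝ) : distP p (qq g z h0 h1) ≤ 2 * g := by
  unfold distP
  refine Real.sSup_le ?_ (by linarith)
  rintro r ⟨φ, hφ, hb, rfl⟩
  have hint : ∀ μ : Measure ℝ, IsProbabilityMeasure μ → Integrable φ μ := fun μ _ =>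
    Integrable.of_bound hφ.aestronglyMeasurable 1 (Eventually.of_forall fun x => hb x)
  have i1 : Integrable φ (p : Measure ℝ) := hint _ inferInstance
  have i2 : Integrable φ (Measure.dirac z) := hint _ inferInstance
  have e : ∫ x, φ x ∂((qq g z h0 h1 : ProbabilityMeasure ℝ) : Measure ℝ) =
      (1 - g) * ∫ x, φ x ∂(p : Measure ℝ) + g * φ z := by
    show ∫ x, φ x ∂(qm g z) = _
    unfold qm
    rw [integral_add_measure (i1.smul_measure ENNReal.ofReal_ne_top)
      (i2.smul_measure ENNReal.ofReal_ne_top), integral_smul_measure, integral_smul_measure,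
      integral_dirac, ENNReal.toReal_ofReal (by linarith), ENNReal.toReal_ofReal h0]
    rfl
  rw [e]
  have hb1 : |∫ x, φ x ∂(p : Measure ℝ)| ≤ 1 := by
    have := norm_integral_le_of_norm_le_const (μ := (p : Measure ℝ)) (f := φ) (C := 1)
      (Eventually.of_forall fun x => hb x)
    simpa using this
  have e2 : ∫ x, φ x ∂(p : Measure ℝ) - ((1 - g) * ∫ x, φ x ∂(p : Measure ℝ) + g * φ z) =
      g * (∫ x, φ x ∂(p : Measure ℝ) - φ z) := by ring
  rw [e2, abs_mul, abs_of_nonneg h0]
  have := abs_sub (∫ x, φ x ∂(p : Measure ℝ)) (φ z)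
  have := hb z
  nlinarith

/-- The main statement. -/
theorem main (N : ℕ) (hN : 1 ≤ N) :
    IsCocycle N A ∧ HasExponents A p (Real.log 2) (-Real.log 2) ∧
      ∀ γ : ℝ, 0 < γ → ∀ Z : Set ℝ, MeasurableSet Z → (p : Measure ℝ) Z = 1 →
        ∃ w ∈ nbhd N A p γ Z, HasExponents w.1 w.2 0 0 := by
  refine ⟨isCocycle_A hN, exponents_p, fun γ hγ Z hZ hpZ => ?_⟩
  obtain ⟨z, hz⟩ : Z.Nonempty := by
    rw [Set.nonempty_iff_ne_empty]
    rintro rfl
    simp at hpZ
  have hg0 : 0 < min (γ / 4) (1 / 2) := by positivity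
  have hg1 : min (γ / 4) (1 / 2) ≤ 1 := (min_le_right _ _).trans (by norm_num)
  refine ⟨(A, qq (min (γ / 4) (1 / 2)) z hg0.le hg1), ⟨isCocycle_A hN, ?_, ?_, ?_⟩,
    exponents_q hg0.ne' hg0.le hg1 z⟩
  · unfold distC
    simp only [sub_self, norm_zero]
    simpa using hγ
  · show qm (min (γ / 4) (1 / 2)) z Z = 1
    unfold qm
    rw [Measure.add_apply, Measure.smul_apply, Measure.smul_apply, hpZ,
      Measure.dirac_apply' _ hZ, Set.indicator_of_mem hz, Pi.one_apply, smul_eq_mul, smul_eq_mul,
      mul_one, mul_one, ← ENNReal.ofReal_add (by linarith) hg0.le]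
    simp
  · refine (distP_q hg0.le hg1 z).trans_lt ?_
    have := min_le_left (γ / 4) (1 / 2)
    linarith

end Pool.Agent.W747.LE
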