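import Pool.Agent.W747.LE.Defs

set_option autoImplicit false

open MeasureTheory Filter Topology

namespace Pool.Agent.W747.LE

/-- Diagonal or antidiagonal matrix with entries `2^t` and `2^{-t}`. -/
noncomputable def Glin (k : Bool) (t : ℤ) : V2 ≃ₗ[ℂ] V2 where
  toFun v := bif k then WithLp.toLp 2 ![(2 : ℂ) ^ (-t) * v 1, (2 : ℂ) ^ t * v 0]
    else WithLp.toLp 2 ![(2 : ℂ) ^ t * v 0, (2 : ℂ) ^ (-t) * v 1]
  map_add' v w := by
    cases k <;> ext i <;> fin_cases i <;> simp <;> ring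
  map_smul' c v := by
    cases k <;> ext i <;> fin_cases i <;> simp <;> ring
  invFun v := bif k then WithLp.toLp 2 ![(2 : ℂ) ^ (-t) * v 1, (2 : ℂ) ^ t * v 0]
    else WithLp.toLp 2 ![(2 : ℂ) ^ (-t) * v 0, (2 : ℂ) ^ t * v 1]
  left_inv v := by
    have h2 : (2 : ℂ) ^ t ≠ 0 := zpow_ne_zero _ two_ne_zero
    cases k <;> ext i <;> fin_cases i <;> simp [h2]
  right_inv v := by
    have h2 : (2 : ℂ) ^ t ≠ 0 := zpow_ne_zero _ two_ne_zero
    cases k <;> ext i <;> fin_cases i <;> simp [h2]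

/-- The same as an element of `GL(2,ℂ)`. -/
noncomputable def G (k : Bool) (t : ℤ) : GL2 := (Glin k t).toContinuousLinearEquiv

lemma G_false (t : ℤ) (v : V2) :
    G false t v = WithLp.toLp 2 ![(2 : ℂ) ^ t * v 0, (2 : ℂ) ^ (-t) * v 1] := rfl

lemma G_true (t : ℤ) (v : V2) :
    G true t v = WithLp.toLp 2 ![(2 : ℂ) ^ (-t) * v 1, (2 : ℂ) ^ t * v 0] := rfl

lemma G_symm (k : Bool) (t : ℤ) : (G k t).symm = bif k then G true t else G false (-t) := by
  cases k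
  · ext v i
    show WithLp.toLp 2 ![(2 : ℂ) ^ (-t) * v 0, (2 : ℂ) ^ t * v 1] i =
      WithLp.toLp 2 ![(2 : ℂ) ^ (-t) * v 0, (2 : ℂ) ^ (- -t) * v 1] i
    rw [neg_neg]
  · ext v i
    rfl

/-- The hyperbolic matrix. -/
noncomputable def D : GL2 := G false 1
/-- The exchange of the axes. -/
noncomputable def R : GL2 := G true 0

lemma G_D (k : Bool) (t : ℤ) : (G k t).trans D = G k (t + bif k then -1 else 1) := by
  have h2 : (2 : ℂ) ≠ 0 := two_ne_zero
  cases k <;> ext v i <;> fin_cases i <;>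
    simp [D, G_false, G_true, zpow_add₀ h2, neg_add] <;> ring

lemma G_R (k : Bool) (t : ℤ) : (G k t).trans R = G (!k) t := by
  cases k <;> ext v i <;> fin_cases i <;> simp [R, G_false, G_true]

lemma norm_two_zpow (t : ℤ) : ‖(2 : ℂ) ^ t‖ = (2 : ℝ) ^ t := by
  rw [norm_zpow]; norm_num

lemma zpow_le_abs (t : ℤ) : (2 : ℝ) ^ t ≤ 2 ^ |t| :=
  zpow_le_zpow_right₀ one_le_two (le_abs_self t)

lemma zpow_neg_le_abs (t : ℤ) : (2 : ℝ) ^ (-t) ≤ 2 ^ |t| :=
  zpow_le_zpow_right₀ one_le_two (neg_le_abs t)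

lemma sq_norm_mk (a b : ℂ) : ‖(WithLp.toLp 2 ![a, b] : V2)‖ ^ 2 = ‖a‖ ^ 2 + ‖b‖ ^ 2 := by
  rw [EuclideanSpace.norm_sq_eq, Fin.sum_univ_two]; rfl

lemma sq_norm_v (v : V2) : ‖v‖ ^ 2 = ‖v 0‖ ^ 2 + ‖v 1‖ ^ 2 := by
  rw [EuclideanSpace.norm_sq_eq, Fin.sum_univ_two]

lemma nrm_G (k : Bool) (t : ℤ) : nrm (G k t) = 2 ^ |t| := by
  have hp : (0 : ℝ) < 2 ^ |t| := by positivity
  apply le_antisymm
  · refine ContinuousLinearMap.opNorm_le_bound _ hp.le fun v => ?_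
    have h1 := zpow_le_abs t
    have h2 := zpow_neg_le_abs t
    have h3 : (0 : ℝ) < 2 ^ t := by positivity
    have h4 : (0 : ℝ) < 2 ^ (-t) := by positivity
    have e1 : ((2 : ℝ) ^ t) ^ 2 ≤ (2 ^ |t|) ^ 2 := pow_le_pow_left₀ h3.le h1 2
    have e2 : ((2 : ℝ) ^ (-t)) ^ 2 ≤ (2 ^ |t|) ^ 2 := pow_le_pow_left₀ h4.le h2 2
    have key : ‖G k t v‖ ^ 2 ≤ (2 ^ |t| * ‖v‖) ^ 2 := by
      rw [mul_pow, sq_norm_v v]
      cases k
      · rw [G_false, sq_norm_mk, norm_mul, norm_mul, norm_two_zpow, norm_two_zpow]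
        nlinarith [sq_nonneg ‖v 0‖, sq_nonneg ‖v 1‖]
      · rw [G_true, sq_norm_mk, norm_mul, norm_mul, norm_two_zpow, norm_two_zpow]
        nlinarith [sq_nonneg ‖v 0‖, sq_nonneg ‖v 1‖]
    exact le_of_sq_le_sq key (by positivity)
  · have hle : ∀ v : V2, ‖v‖ = 1 → ‖G k t v‖ ≤ nrm (G k t) := by
      intro v hv
      have := (G k t : V2 →L[ℂ] V2).le_opNorm v
      rwa [hv, mul_one] at this
    rcases le_total 0 t with h | h
    · have hv : ‖(WithLp.toLp 2 ![1, 0] : V2)‖ = 1 := by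
        have := sq_norm_mk 1 0
        simp only [norm_one, one_pow, norm_zero, ne_eq, OfNat.ofNat_ne_zero, not_false_eq_true,
          zero_pow, add_zero] at this
        exact by nlinarith [norm_nonneg (WithLp.toLp 2 ![1, 0] : V2), norm_nonneg (WithLp.toLp 2 ![0, 1] : V2)]
      refine le_trans (le_of_eq ?_) (hle _ hv)
      have : ‖G k t (WithLp.toLp 2 ![1, 0] : V2)‖ ^ 2 = (2 ^ |t|) ^ 2 := by
        rw [abs_of_nonneg h]
        cases k
        · rw [G_false, sq_norm_mk]; simp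
        · rw [G_true, sq_norm_mk]; simp
      exact ((pow_left_inj₀ (norm_nonneg _) hp.le two_ne_zero).mp this).symm
    · have hv : ‖(WithLp.toLp 2 ![0, 1] : V2)‖ = 1 := by
        have := sq_norm_mk 0 1
        simp only [norm_one, one_pow, norm_zero, ne_eq, OfNat.ofNat_ne_zero, not_false_eq_true,
          zero_pow, zero_add] at this
        exact by nlinarith [norm_nonneg (WithLp.toLp 2 ![1, 0] : V2), norm_nonneg (WithLp.toLp 2 ![0, 1] : V2)]
      refine le_trans (le_of_eq ?_) (hle _ hv)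
      have : ‖G k t (WithLp.toLp 2 ![0, 1] : V2)‖ ^ 2 = (2 ^ |t|) ^ 2 := by
        rw [abs_of_nonpos h]
        cases k
        · rw [G_false, sq_norm_mk]; simp
        · rw [G_true, sq_norm_mk]; simp
      exact ((pow_left_inj₀ (norm_nonneg _) hp.le two_ne_zero).mp this).symm

lemma nrm_G_symm (k : Bool) (t : ℤ) : nrm (G k t).symm = 2 ^ |t| := by
  rw [G_symm]
  cases k
  · simp [nrm_G]
  · simp [nrm_G]

end Pool.Agent.W747.LE
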